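import Pool.Agent.Y240.KF.Tools

set_option autoImplicit false
set_option linter.unusedSectionVars false

/-!
# The chain bound
-/

namespace Pool.Agent.Y362.KF

open Finset
open scoped Classical
open Pool.Agent.Y240.KF
open Pool.Agent.TH965 Pool.Agent.TH965.Emb Pool.Agent.TH965.Spread
open Pool.Agent.TH948.KK (ind ind_true ind_false ind_nonneg ind_le_one ind_mono ind_congr exs_congr
  exs_sum)

/-- The deterministic inequality for one clique. -/
lemma det_one {E I : Type} (L : Finset I) (A : I → Finset E) (D : ℕ) (p : ℝ) (hp0 : 0 ≤ p)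
    (j i : I) (hi : (A i).card ≤ D) (B T : Finset I) (hT : T ⊆ L) :
    p ^ (A i \ (A j ∪ cov A (T ∪ B))).card ≤ p ^ (A i \ (A j ∪ cov A B)).card
      + ∑ S ∈ (L \ B).powerset with S.Nonempty ∧ S.card ≤ D ∧ ∀ a ∈ S, (A a ∩ A i).Nonempty,
        ind (S ⊆ T) * p ^ (A i \ (A j ∪ cov A (B ∪ S))).card := by
  have hnn : ∀ S ∈ (L \ B).powerset.filter
      (fun S => S.Nonempty ∧ S.card ≤ D ∧ ∀ a ∈ S, (A a ∩ A i).Nonempty),
      0 ≤ ind (S ⊆ T) * p ^ (A i \ (A j ∪ cov A (B ∪ S))).card := by
    intro S _
    exact mul_nonneg (ind_nonneg _) (pow_nonneg hp0 _)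
  set R := (A i \ (A j ∪ cov A B)) ∩ cov A (T ∪ B) with hR
  have hex : ∀ e : E, ∃ a : I, e ∈ R → (a ∈ T ∧ a ∉ B ∧ e ∈ A a) := by
    intro e
    by_cases he : e ∈ R
    · rw [hR, Finset.mem_inter, Finset.mem_sdiff, Finset.mem_union] at he
      obtain ⟨⟨_, h2⟩, h3⟩ := he
      unfold cov at h2 h3
      rw [Finset.mem_biUnion] at h3
      obtain ⟨a, ha, hea⟩ := h3
      have haB : a ∉ B := by
        intro haB
        exact h2 (Or.inr (Finset.mem_biUnion.mpr ⟨a, haB, hea⟩))
      rw [Finset.mem_union] at ha
      exact ⟨a, fun _ => ⟨ha.resolve_right haB, haB, hea⟩⟩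
    · by_cases hI : Nonempty I
      · exact ⟨hI.some, fun h => absurd h he⟩
      · exact ⟨i, fun h => absurd h he⟩
  choose a ha using hex
  set S := R.image a with hS
  by_cases hne : R.Nonempty
  · -- the term of `S`
    have hSm : S ∈ (L \ B).powerset.filter
        (fun S => S.Nonempty ∧ S.card ≤ D ∧ ∀ a ∈ S, (A a ∩ A i).Nonempty) := by
      rw [Finset.mem_filter, Finset.mem_powerset]
      refine ⟨?_, hne.image a, ?_, ?_⟩
      · intro x hx
        rw [hS, Finset.mem_image] at hx
        obtain ⟨e, he, rfl⟩ := hx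
        rw [Finset.mem_sdiff]
        exact ⟨hT (ha e he).1, (ha e he).2.1⟩
      · calc S.card ≤ R.card := Finset.card_image_le
          _ ≤ (A i).card := by
              apply Finset.card_le_card
              intro e he
              rw [hR, Finset.mem_inter, Finset.mem_sdiff] at he
              exact he.1.1
          _ ≤ D := hi
      · intro x hx
        rw [hS, Finset.mem_image] at hx
        obtain ⟨e, he, rfl⟩ := hx
        refine ⟨e, Finset.mem_inter.mpr ⟨(ha e he).2.2, ?_⟩⟩
        rw [hR, Finset.mem_inter, Finset.mem_sdiff] at he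
        exact he.1.1
    have hST : S ⊆ T := by
      intro x hx
      rw [hS, Finset.mem_image] at hx
      obtain ⟨e, he, rfl⟩ := hx
      exact (ha e he).1
    have heq : A i \ (A j ∪ cov A (T ∪ B)) = A i \ (A j ∪ cov A (B ∪ S)) := by
      ext e
      rw [Finset.mem_sdiff, Finset.mem_sdiff, Finset.mem_union, Finset.mem_union]
      constructor
      · rintro ⟨h1, h2⟩
        refine ⟨h1, ?_⟩
        rintro (h3 | h3)
        · exact h2 (Or.inl h3)
        · apply h2
          right
          unfold cov at h3 ⊢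
          rw [Finset.mem_biUnion] at h3 ⊢
          obtain ⟨x, hx, hex⟩ := h3
          refine ⟨x, ?_, hex⟩
          rw [Finset.mem_union] at hx ⊢
          rcases hx with hx | hx
          · exact Or.inr hx
          · exact Or.inl (hST hx)
      · rintro ⟨h1, h2⟩
        refine ⟨h1, ?_⟩
        rintro (h3 | h3)
        · exact h2 (Or.inl h3)
        · by_cases h4 : e ∈ A j ∪ cov A B
          · apply h2
            rw [Finset.mem_union] at h4
            rcases h4 with h4 | h4
            · exact Or.inl h4
            · right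
              unfold cov at h4 ⊢
              rw [Finset.mem_biUnion] at h4 ⊢
              obtain ⟨x, hx, hex⟩ := h4
              exact ⟨x, Finset.mem_union_left _ hx, hex⟩
          · have heR : e ∈ R := by
              rw [hR, Finset.mem_inter, Finset.mem_sdiff]
              exact ⟨⟨h1, h4⟩, h3⟩
            apply h2
            right
            unfold cov
            rw [Finset.mem_biUnion]
            exact ⟨a e, Finset.mem_union_right _ (Finset.mem_image_of_mem a heR), (ha e heR).2.2⟩
    have h1 := Finset.single_le_sum hnn hSm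
    rw [ind_true hST, one_mul, ← heq] at h1
    have h2 : 0 ≤ p ^ (A i \ (A j ∪ cov A B)).card := pow_nonneg hp0 _
    linarith
  · rw [Finset.not_nonempty_iff_eq_empty] at hne
    have heq : A i \ (A j ∪ cov A (T ∪ B)) = A i \ (A j ∪ cov A B) := by
      ext e
      rw [Finset.mem_sdiff, Finset.mem_sdiff, Finset.mem_union, Finset.mem_union]
      constructor
      · rintro ⟨h1, h2⟩
        refine ⟨h1, ?_⟩
        rintro (h3 | h3)
        · exact h2 (Or.inl h3)
        · apply h2
          right
          unfold cov at h3 ⊢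
          rw [Finset.mem_biUnion] at h3 ⊢
          obtain ⟨x, hx, hex⟩ := h3
          exact ⟨x, Finset.mem_union_right _ hx, hex⟩
      · rintro ⟨h1, h2⟩
        refine ⟨h1, ?_⟩
        intro h3
        have h5 : e ∉ R := by rw [hne]; exact Finset.notMem_empty e
        rw [hR, Finset.mem_inter, Finset.mem_sdiff, Finset.mem_union] at h5
        rcases h3 with h3 | h3
        · exact h2 (Or.inl h3)
        · exact h5 ⟨⟨h1, h2⟩, h3⟩
    rw [heq]
    have h2 := Finset.sum_nonneg hnn
    linarith

theorem chain : StChain := by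
  intro E I L A D hAD p π hp0 hp1 hπ0 hπ1 j m K ε hε hQ hS
  set Sx : Finset I → I → Finset (Finset I) := fun B i => (L \ B).powerset.filter
    (fun S => S.Nonempty ∧ S.card ≤ D ∧ ∀ a ∈ S, (A a ∩ A i).Nonempty) with hSx
  set Lx : Finset I := L.filter (fun i => i ≠ j ∧ (A i ∩ A j).Nonempty) with hLx
  have hdet : ∀ B T : Finset I, T ⊆ L → QQ L A p j (T ∪ B) ≤ QQ L A p j B
      + ∑ i ∈ Lx, ∑ S ∈ Sx B i, ind (S ⊆ T) * p ^ (A i \ (A j ∪ cov A (B ∪ S))).card := by
    intro B T hT
    unfold QQ
    rw [← Finset.sum_add_distrib]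
    apply Finset.sum_le_sum
    intro i hi
    rw [Finset.mem_filter] at hi
    exact det_one L A D p hp0 j i (hAD i hi.1) B T hT
  have key : ∀ n : ℕ, n ≤ m → ∀ B ⊆ L, B.card ≤ (m - n) * D →
      exs L π (fun T => ind (¬ QQ L A p j (T ∪ B) ≤ K + 1)) ≤ ε ^ n := by
    intro n
    induction n with
    | zero =>
      intro _ B _ _
      rw [pow_zero]
      exact exs_le_one L hπ0 hπ1 (fun W _ => ind_le_one _)
    | succ n ih =>
      intro hn B hB hBc
      have hBm : B.card ≤ m * D := hBc.trans (Nat.mul_le_mul_right D (Nat.sub_le _ _))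
      -- the pointwise bound
      have h1 : ∀ T, T ⊆ L → ind (¬ QQ L A p j (T ∪ B) ≤ K + 1)
          ≤ ∑ i ∈ Lx, ∑ S ∈ Sx B i, ind (S ⊆ T) *
            (p ^ (A i \ (A j ∪ cov A (B ∪ S))).card * ind (¬ QQ L A p j (T ∪ B) ≤ K + 1)) := by
        intro T hT
        by_cases h : QQ L A p j (T ∪ B) ≤ K + 1
        · rw [ind_false (not_not.mpr h)]
          apply Finset.sum_nonneg
          intro i _
          apply Finset.sum_nonneg
          intro S _
          rw [mul_zero, mul_zero]
        · rw [ind_true h]
          have h2 := hdet B T hT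
          have h3 := hQ B hB hBm
          push Not at h
          have h4 : (1 : ℝ) ≤ ∑ i ∈ Lx, ∑ S ∈ Sx B i,
              ind (S ⊆ T) * p ^ (A i \ (A j ∪ cov A (B ∪ S))).card := by linarith
          refine h4.trans (le_of_eq ?_)
          apply Finset.sum_congr rfl
          intro i _
          apply Finset.sum_congr rfl
          intro S _
          rw [mul_one]
      refine (exs_mono L hπ0 hπ1 h1).trans ?_
      rw [exs_sum]
      have h5 : ∀ i ∈ Lx, exs L π (fun T => ∑ S ∈ Sx B i, ind (S ⊆ T) *
            (p ^ (A i \ (A j ∪ cov A (B ∪ S))).card * ind (¬ QQ L A p j (T ∪ B) ≤ K + 1)))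
          ≤ ∑ S ∈ Sx B i, π ^ S.card * p ^ (A i \ (A j ∪ cov A (B ∪ S))).card * ε ^ n := by
        intro i _
        rw [exs_sum]
        apply Finset.sum_le_sum
        intro S hSm
        simp only [hSx, Finset.mem_filter, Finset.mem_powerset] at hSm
        obtain ⟨hSL, _, hSc, _⟩ := hSm
        have hSL' : S ⊆ L := hSL.trans Finset.sdiff_subset
        rw [exs_cond L π S hSL' (fun T => p ^ (A i \ (A j ∪ cov A (B ∪ S))).card *
          ind (¬ QQ L A p j (T ∪ B) ≤ K + 1)), exs_mul_left]
        have h6 : exs L π (fun W => ind (¬ QQ L A p j (W ∪ S ∪ B) ≤ K + 1)) ≤ ε ^ n := by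
          have h7 := ih (by omega) (B ∪ S) (Finset.union_subset hB hSL') (by
            calc (B ∪ S).card ≤ B.card + S.card := Finset.card_union_le _ _
              _ ≤ (m - (n + 1)) * D + D := Nat.add_le_add hBc hSc
              _ = (m - (n + 1) + 1) * D := by ring
              _ = (m - n) * D := by congr 1; omega)
          refine le_trans (le_of_eq ?_) h7
          apply exs_congr
          intro W _
          rw [Finset.union_assoc, Finset.union_comm S B]
        have h8 : 0 ≤ π ^ S.card * p ^ (A i \ (A j ∪ cov A (B ∪ S))).card := by positivity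
        calc π ^ S.card * (p ^ (A i \ (A j ∪ cov A (B ∪ S))).card *
              exs L π (fun W => ind (¬ QQ L A p j (W ∪ S ∪ B) ≤ K + 1)))
            = π ^ S.card * p ^ (A i \ (A j ∪ cov A (B ∪ S))).card *
              exs L π (fun W => ind (¬ QQ L A p j (W ∪ S ∪ B) ≤ K + 1)) := by ring
          _ ≤ π ^ S.card * p ^ (A i \ (A j ∪ cov A (B ∪ S))).card * ε ^ n :=
              mul_le_mul_of_nonneg_left h6 h8
      refine (Finset.sum_le_sum h5).trans ?_
      have h9 : ∑ i ∈ Lx, ∑ S ∈ Sx B i,
          π ^ S.card * p ^ (A i \ (A j ∪ cov A (B ∪ S))).card * ε ^ n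
          = SS L A D p π j B * ε ^ n := by
        unfold SS
        rw [Finset.sum_mul]
        apply Finset.sum_congr rfl
        intro i _
        rw [Finset.sum_mul]
      rw [h9, pow_succ, mul_comm (ε ^ n) ε]
      exact mul_le_mul_of_nonneg_right (hS B hB hBm) (pow_nonneg hε n)
  have h := key m le_rfl ∅ (Finset.empty_subset _) (by simp)
  refine le_trans (le_of_eq ?_) h
  apply exs_congr
  intro W _
  rw [Finset.union_empty]

end Pool.Agent.Y362.KF
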